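import Mathlib

set_option autoImplicit false

namespace Pool.Agent.H.MP_c1d873_al

open scoped Topology Manifold
open Filter Real Set

instance : Fact (0 < (2 : ℝ)) := ⟨two_pos⟩

abbrev N := AddCircle (2 : ℝ)

noncomputable def psi : OpenPartialHomeomorph ℝ (EuclideanHalfSpace 1) where
  source := univ
  target := {z | 0 < z.val 0}
  toFun t := ⟨WithLp.toLp 2 fun _ => exp t, (exp_pos t).le⟩
  invFun z := log (z.val 0)
  map_source' t _ := exp_pos t
  map_target' _ _ := trivial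
  left_inv' t _ := log_exp t
  right_inv' z hz := Subtype.ext (by
    ext i; rw [Subsingleton.elim i 0]; exact exp_log hz)
  open_source := isOpen_univ
  open_target := isOpen_lt continuous_const (by fun_prop)
  continuousOn_toFun := by fun_prop
  continuousOn_invFun := ContinuousOn.log (by fun_prop) fun _ hz => ne_of_gt hz

noncomputable def ch (a : ℝ) : OpenPartialHomeomorph N (EuclideanHalfSpace 1) :=
  (AddCircle.openPartialHomeomorphCoe 2 a).symm ≫ₕ psi

open Classical in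
noncomputable def ct (y : N) : ℝ := if y = (1 : ℝ) then 0 else -1

lemma two (x : ℝ) : ((x + 2 : ℝ) : N) = x := AddCircle.coe_add_period 2 x

lemma ct_ne (y : N) : y ≠ ct y := by
  unfold ct
  split_ifs with h
  · rw [h]; exact fun h => one_ne_zero ((AddCircle.coe_eq_zero_iff_of_mem_Ico (by norm_num)).1 h)
  · rwa [← two (-1), show (-1 + 2 : ℝ) = 1 by norm_num]

@[reducible] noncomputable def cs : ChartedSpace (EuclideanHalfSpace 1) N where
  atlas := range ch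
  chartAt y := ch (ct y)
  mem_chart_source y := ⟨ct_ne y, trivial⟩
  chart_mem_atlas _ := ⟨_, rfl⟩

lemma coord {n : WithTop ℕ∞} {φ : N → N} {F : ℝ → ℝ} (a b : ℝ) {z : EuclideanSpace ℝ (Fin 1)}
    (hz : 0 < z 0) (hF : ContDiffAt ℝ n F (log (z 0)))
    (h : ∀ᶠ t : ℝ in 𝓝 (log (z 0)), φ t = F t) (hb : (F (log (z 0)) : N) ≠ b) :
    ContDiffAt ℝ n ((𝓡∂ 1) ∘ ch b ∘ φ ∘ (ch a).symm ∘ (𝓡∂ 1).symm) z := by
  have h1 : ContDiffAt ℝ n (fun z : EuclideanSpace ℝ (Fin 1) => log (z 0)) z :=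
    ContDiffAt.log (by fun_prop) hz.ne'
  refine (contDiffAt_euclidean.2 fun _ => ((hF.comp z h1).sub (contDiffAt_const
    (c := toIcoDiv two_pos b (F (log (z 0))) • (2 : ℝ)))).exp).congr_of_eventuallyEq
    (f := fun z : EuclideanSpace ℝ (Fin 1) => WithLp.toLp 2 fun _ => exp (F (log (z 0)) - _)) ?_
  filter_upwards [h1.continuousAt.eventually h, (hF.comp z h1).continuousAt.eventually
    (eventuallyEq_toIcoDiv_nhds two_pos b (AddCommGroup.not_modEq_iff_ne_mod_zmultiples.2 hb)),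
    (by fun_prop : Continuous fun z : EuclideanSpace ℝ (Fin 1) => z 0).continuousAt.eventually
      (lt_mem_nhds hz)] with w h2 h3 h4
  ext i
  change exp (AddCircle.equivIco 2 b (φ (log (max (w 0) 0) : ℝ)) : ℝ) = _
  simp only [Function.comp] at h3
  rw [max_eq_left h4.le, h2, ← h3]
  rfl

lemma man : @IsManifold ℝ _ _ _ _ _ _ (𝓡∂ 1) ((⊤ : ℕ∞) : WithTop ℕ∞) N _ cs := by
  letI := cs
  refine isManifold_of_contDiffOn _ _ _ ?_
  rintro _ _ ⟨a, rfl⟩ ⟨b, rfl⟩ _ ⟨h, z, rfl⟩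
  rw [mem_preimage, ModelWithCorners.left_inv] at h
  exact (coord (φ := id) (F := id) a b h.1.1 contDiffAt_id (.of_forall fun _ => rfl)
    h.2.1).contDiffWithinAt

lemma cm {φ : N → N} (h : ∀ t : ℝ, -1 < t → t ≤ 1 → ∃ F : ℝ → ℝ, ContDiffAt ℝ 1 F t ∧
    ∀ᶠ s : ℝ in 𝓝 t, φ s = F s) :
    @ContMDiff ℝ _ _ _ _ _ _ (𝓡∂ 1) N _ cs _ _ _ _ _ (𝓡∂ 1) N _ cs 1 φ := by
  letI := cs
  intro y
  have h1 := continuousAt_subtype_val.comp (AddCircle.continuousAt_equivIco 2 _ (ct_ne y))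
  have h2 := (AddCircle.equivIco 2 (ct y) y).2
  have h3 : ((AddCircle.equivIco 2 (ct y) y : ℝ) : N) = y := AddCircle.coe_equivIco
  obtain ⟨F, h4, h5⟩ := h (AddCircle.equivIco 2 (ct y) y) (by
    by_cases h : y = (1 : ℝ)
    · linarith [h2.1, show ct y = 0 from if_pos h]
    · have h4 : ct y = -1 := if_neg h
      exact (h4.ge.trans h2.1).lt_of_ne fun h' => ct_ne y (h3.symm.trans (by rw [← h', h4])))
    (by
    by_cases h : y = (1 : ℝ)
    · rw [show ct y = 0 from if_pos h, h, AddCircle.equivIco_coe_eq (by norm_num)]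
    · linarith [h2.2, show ct y = -1 from if_neg h])
  refine contMDiffAt_iff.2 ⟨(((AddCircle.continuous_mk' 2).continuousAt.comp
    (h4.continuousAt.comp (f := Subtype.val ∘ AddCircle.equivIco 2 (ct y)) h1)).congr ((h1.eventually h5).mono fun w hw => ?_)),
    (coord (ct y) (ct (φ y)) (F := F) (exp_pos _) ?_ ?_ ?_).contDiffWithinAt⟩
  · exact hw.symm.trans (congrArg φ AddCircle.coe_equivIco)
  · exact (log_exp _).symm ▸ h4
  · exact (log_exp _).symm ▸ h5
  · exact (log_exp _).symm ▸ h5.self_of_nhds ▸ h3.symm ▸ ct_ne _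

lemma refl {u : ℝ → ℝ} (hu : ContDiffOn ℝ 1 u (Icc 0 1)) {t : ℝ} (h1 : -1 < t) (h2 : t < 1) :
    ContDiffAt ℝ 1 (fun x => if 0 ≤ x then u x else 2 * u 0 - u (-x)) t := by
  have h3 := hu.continuousOn_derivWithin (uniqueDiffOn_Icc one_pos) le_rfl
  have h4 := fun x hx => (hu.differentiableOn one_ne_zero x hx).hasDerivWithinAt
  refine contDiffAt_one_iff.2 ⟨fun x => ContinuousLinearMap.toSpanSingleton ℝ
    (derivWithin u (Icc 0 1) |x|), Ioo (-1) 1, Ioo_mem_nhds h1 h2,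
    (ContinuousLinearMap.toSpanSingletonCLE (𝕜 := ℝ) (E := ℝ)).continuous.comp_continuousOn
      (h3.comp continuous_abs.continuousOn fun x hx => ⟨abs_nonneg _, (abs_lt.2 hx).le⟩),
    fun x hx => HasDerivAt.hasFDerivAt (HasDerivWithinAt.hasDerivAt (HasDerivWithinAt.union
      (s := Icc (-1) 0) (t := Icc 0 1) ?_ ?_) ?_)⟩
  · by_cases h : x ≤ 0
    · refine (((h4 (-x) ⟨by linarith, by linarith [hx.1]⟩).comp x (hasDerivAt_neg x).hasDerivWithinAt
        fun y (hy : y ∈ Icc (-1 : ℝ) 0) => ⟨by linarith [hy.2], by linarith [hy.1]⟩).const_sub (2 * u 0)).congr_of_mem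
        (fun y hy => ?_) ⟨hx.1.le, h⟩ |>.congr_deriv (by simp [abs_of_nonpos h])
      split_ifs with h'
      · simp [hy.2.antisymm h', two_mul]
      · rfl
    · exact HasFDerivWithinAt.of_notMem_closure (by simp [h])
  · by_cases h : 0 ≤ x
    · rw [abs_of_nonneg h]
      exact (h4 x ⟨h, hx.2.le⟩).congr_of_mem (fun y hy => if_pos hy.1) ⟨h, hx.2.le⟩
    · exact HasFDerivWithinAt.of_notMem_closure (by simp [h])
  · rw [Icc_union_Icc_eq_Icc (by norm_num) (by norm_num)]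
    exact Icc_mem_nhds hx.1 hx.2

abbrev M := Icc (0 : ℝ) 1

noncomputable def tau (y : N) : M :=
  ⟨‖y‖, norm_nonneg _, by simpa using AddCircle.norm_le_half_period 2 (x := y) two_ne_zero⟩

lemma tau_coe (t : M) : tau (t : ℝ) = t := Subtype.ext
  (((AddCircle.norm_coe_eq_abs_iff 2 two_ne_zero).2 (by simpa [abs_of_nonneg t.2.1] using t.2.2)).trans
    (abs_of_nonneg t.2.1))

lemma cases (y : N) : ∃ t : M, y = (t : ℝ) ∨ y = -((t : ℝ) : N) := by
  obtain ⟨x, hx⟩ := AddCircle.equivIco 2 (-1) y |>.2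
  rcases le_total 0 (AddCircle.equivIco 2 (-1) y : ℝ) with h | h
  · exact ⟨⟨_, h, by linarith⟩, Or.inl AddCircle.coe_equivIco.symm⟩
  · exact ⟨⟨-_, neg_nonneg.2 h, by linarith⟩, Or.inr (by simp)⟩

open Classical in
noncomputable def dbl (f : M → M) (y : N) : N :=
  if y = (tau y : ℝ) then (f (tau y) : ℝ) else -((f (tau y) : ℝ) : N)

lemma dbl1 (f : M → M) (t : M) : dbl f (t : ℝ) = (f t : ℝ) := by simp [dbl, tau_coe]

lemma ends {f : Equiv.Perm M} (hf : Continuous f) {t : M} (h : t = 0 ∨ t = 1) :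
    -((f t : ℝ) : N) = (f t : ℝ) := by
  have : f t = 0 ∨ f t = 1 := by
    rcases hf.strictMono_of_inj f.injective with k | k <;> rcases h with rfl | rfl
    · exact Or.inl (bot_unique ((k.monotone bot_le).trans_eq (f.apply_symm_apply 0)))
    · exact Or.inr (top_unique ((f.apply_symm_apply 1).ge.trans (k.monotone le_top)))
    · exact Or.inr (top_unique ((f.apply_symm_apply 1).ge.trans (k.antitone bot_le)))
    · exact Or.inl (bot_unique ((k.antitone le_top).trans_eq (f.apply_symm_apply 0)))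
  rcases this with h | h <;> rw [h]
  · simp
  · rw [← AddCircle.coe_neg, ← two]; norm_num

lemma dbl2 {f : Equiv.Perm M} (hf : Continuous f) (t : M) :
    dbl f (-((t : ℝ) : N)) = -((f t : ℝ) : N) := by
  have h1 : tau (-((t : ℝ) : N)) = t := (Subtype.ext (norm_neg _)).trans (tau_coe t)
  rw [dbl, h1]
  split_ifs with h
  · refine (ends hf ?_).symm
    rw [neg_eq_iff_add_eq_zero, ← AddCircle.coe_add, AddCircle.coe_eq_zero_iff] at h
    obtain ⟨n, hn⟩ := h
    have h2 : 0 ≤ n := by exact_mod_cast (by simp at hn; linarith [t.2.1] : (0 : ℝ) ≤ n)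
    have h3 : n ≤ 1 := by exact_mod_cast (by simp at hn; linarith [t.2.2] : (n : ℝ) ≤ 1)
    obtain rfl | rfl : n = 0 ∨ n = 1 := by omega
    · exact Or.inl (Subtype.ext (by simpa using hn.symm))
    · exact Or.inr (Subtype.ext (show (t : ℝ) = 1 by simp at hn; linarith))
  · rfl

lemma dbl_cm {f : Equiv.Perm M} (hf : ContMDiff (𝓡∂ 1) (𝓡∂ 1) 1 f) :
    @ContMDiff ℝ _ _ _ _ _ _ (𝓡∂ 1) N _ cs _ _ _ _ _ (𝓡∂ 1) N _ cs 1 (dbl f) := by
  have hu : ContDiffOn ℝ 1 (fun x => (f (projIcc 0 1 zero_le_one x) : ℝ)) (Icc 0 1) :=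
    contMDiffOn_iff_contDiffOn.1 ((contMDiff_subtypeVal_Icc.comp hf).comp_contMDiffOn
      contMDiffOn_projIcc)
  have h1 : ∀ s (h : s ∈ Icc 0 1), dbl f (s : ℝ) = (f (projIcc 0 1 zero_le_one s) : ℝ) :=
    fun s h => by rw [projIcc_of_mem _ h]; exact dbl1 f ⟨s, h⟩
  have h2 : ∀ s (h : s ∈ Icc 0 1), ∀ t : M, t = 0 ∨ t = 1 → dbl f (-s : ℝ) =
      (2 * f t - f (projIcc 0 1 zero_le_one s) : ℝ) := fun s h t ht => by
    rw [projIcc_of_mem _ h, AddCircle.coe_neg, dbl2 hf.continuous ⟨s, h⟩, two_mul, AddCircle.coe_sub,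
      AddCircle.coe_add, neg_eq_iff_add_eq_zero.1 (ends hf.continuous ht), zero_sub]
  refine cm fun t t1 t2 => t2.lt_or_eq.elim (fun t2 => ⟨_, refl hu t1 t2, ?_⟩) ?_
  · filter_upwards [Ioo_mem_nhds t1 t2] with s hs
    split_ifs with h
    · exact h1 s ⟨h, hs.2.le⟩
    · simpa using h2 (-s) ⟨by linarith, by linarith [hs.1]⟩ 0 (Or.inl rfl)
  · rintro rfl
    refine ⟨_, ContDiffAt.comp (f := fun x => 1 - x) 1 (refl (hu.comp (f := fun x => 1 - x)
      (by fun_prop) fun x hx => ⟨by linarith [hx.2], by linarith [hx.1]⟩) (by norm_num)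
      (by norm_num)) (by fun_prop), ?_⟩
    filter_upwards [Ioo_mem_nhds one_pos one_lt_two] with s hs
    simp only [Function.comp]
    split_ifs with h
    · simpa using h1 s ⟨hs.1.le, by linarith⟩
    · have := h2 (2 - s) ⟨by linarith [hs.2], by linarith⟩ 1 (Or.inr rfl)
      rw [← two, show -(2 - s) + 2 = s by ring] at this
      rw [this, show 1 - -(1 - s) = 2 - s by ring]; simp

theorem act {G : Type} [Group G] (ρ : G →* Equiv.Perm M) (hi : Function.Injective ρ)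
    (h : ∀ g, ContMDiff (𝓡∂ 1) (𝓡∂ 1) 1 (ρ g)) : ∃ σ : G →* Equiv.Perm N, Function.Injective σ ∧
      ∀ g, @ContMDiff ℝ _ _ _ _ _ _ (𝓡∂ 1) N _ cs _ _ _ _ _ (𝓡∂ 1) N _ cs 1 (σ g) := by
  have h1 : ∀ a b y, dbl (ρ (a * b)) y = dbl (ρ a) (dbl (ρ b) y) := fun a b y => by
    obtain ⟨t, rfl | rfl⟩ := cases y <;>
      simp only [dbl1, dbl2 (h _).continuous] <;> simp
  have h2 : ∀ y, dbl (ρ 1) y = y := fun y => by
    obtain ⟨t, rfl | rfl⟩ := cases y
    · simp [dbl1]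
    · rw [dbl2 (h _).continuous]; simp
  exact ⟨MonoidHom.mk' (fun g => ⟨dbl (ρ g), dbl (ρ g⁻¹), fun y => by rw [← h1, inv_mul_cancel, h2],
    fun y => by rw [← h1, mul_inv_cancel, h2]⟩) fun a b => Equiv.ext (h1 a b),
    fun a b e => hi (Equiv.ext fun t => by
      simpa [dbl1, tau_coe] using congrArg (fun φ : Equiv.Perm N => tau (φ (t : ℝ))) e),
    fun g => dbl_cm (h g)⟩

lemma nohomeo (e : M ≃ₜ N) : False := by
  obtain ⟨c, -, hc⟩ := exists_mem_Icc_isFixedPt (f := fun t => e.symm (e t + (1 : ℝ))) (a := ⊥)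
    (b := ⊤) (by fun_prop) bot_le bot_le le_top
  rw [Function.IsFixedPt, e.symm_apply_eq, add_eq_left] at hc
  exact one_ne_zero ((AddCircle.coe_eq_zero_iff_of_mem_Ico (by norm_num)).1 hc)

theorem main (G : Type) [Group G] : ¬ ∀ (N : Type) [TopologicalSpace N] [T2Space N] [CompactSpace N]
    [ConnectedSpace N] [ChartedSpace (EuclideanHalfSpace 1) N]
    [IsManifold (𝓡∂ 1) ((⊤ : ℕ∞) : WithTop ℕ∞) N],
    ((∃ ρ : G →* Equiv.Perm N, Function.Injective ρ ∧ ∀ g : G, ContMDiff (𝓡∂ 1) (𝓡∂ 1) 1 (ρ g)) ↔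
      Nonempty (Diffeomorph (𝓡∂ 1) (𝓡∂ 1) M N 1)) := fun h => by
  haveI : ConnectedSpace M := isConnected_iff_connectedSpace.1 (isConnected_Icc zero_le_one)
  obtain ⟨ρ, h1, h2⟩ := (h M).2 ⟨Diffeomorph.refl _ _ _⟩
  letI := cs
  obtain ⟨e⟩ := (@h N _ _ _ _ cs man).1 (act ρ h1 h2)
  exact nohomeo e.toHomeomorph

end Pool.Agent.H.MP_c1d873_al
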